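import Pool.Agent.Helper99.LZ.Bridge

/-!
# Packet MT-BR1 (project C2): the family without parameters and the relations of the context
-/

set_option autoImplicit false

open Finset

namespace Pool.Agent.Helper13.LZ

open Pool.Agent.Helper99.LZ
open Pool.Agent.Helper52.C2 (Tg Fam Dir pre quad)

/-! ### the family without parameters -/

/-- directions without parameters -/
def dirE : Dir (Option Empty) ≃ Dir Unit where
  toFun d := match d with
    | .X => .X
    | .Y => .Y
    | .V none => .V ()
    | .V (some e) => e.elim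
  invFun d := match d with
    | .X => .X
    | .Y => .Y
    | .V _ => .V none
  left_inv := by
    rintro (_ | _ | e)
    · rfl
    · rfl
    · cases e with
      | none => rfl
      | some e => exact e.elim
  right_inv := by
    rintro (_ | _ | ⟨⟩) <;> rfl

theorem bre_win (B : Tg) (n : ℕ) (i : ℤ) (a b : Dir (Option Empty)) :
    (famE B).win n i a b = B.win n i (dirE a) (dirE b) := by
  rcases a with _ | _ | a
  · rcases b with _ | _ | b
    · rfl
    · rfl
    · cases b with
      | none => rfl
      | some e => exact e.elim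
  · rcases b with _ | _ | b
    · rfl
    · rfl
    · cases b with
      | none => rfl
      | some e => exact e.elim
  · cases a with
    | none =>
      rcases b with _ | _ | b
      · rfl
      · rfl
      · cases b with
        | none => rfl
        | some e => exact e.elim
    | some e => exact e.elim

theorem bre : StmtBRE := by
  intro B hB
  refine ⟨hB.nonneg, fun e => e.elim, fun e => e.elim, fun e => e.elim, fun n i => ?_⟩
  obtain ⟨l, hl⟩ := hB.win n i
  refine ⟨fun a => l (dirE a), fun v hv hlv => ?_⟩
  have h := hl (fun d => v (dirE.symm d)) (fun d hd => ?_) ?_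
  · have h2 : quad ((famE B).win n i) v = quad (B.win n i) (fun d => v (dirE.symm d)) := by
      unfold quad
      refine Fintype.sum_equiv dirE _ _ fun a => Fintype.sum_equiv dirE _ _ fun b => ?_
      show _ = v (dirE.symm (dirE a)) * B.win n i (dirE a) (dirE b) * v (dirE.symm (dirE b))
      rw [bre_win, Equiv.symm_apply_apply, Equiv.symm_apply_apply]
    rw [h2]
    exact h
  · refine hv _ fun h3 => hd ?_
    rcases d with _ | _ | d
    · trivial
    · trivial
    · exact h3
  · rw [← hlv]
    refine (Fintype.sum_equiv dirE _ _ fun a => ?_).symm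
    show _ = l (dirE a) * v (dirE.symm (dirE a))
    rw [Equiv.symm_apply_apply]

/-! ### the relations of the context -/

section rel
variable {E : Type} [Fintype E] [DecidableEq E] (A : Fam E)

omit [DecidableEq E] in
theorem famEntry_symm (hA : A.Good) (p q : ℤ) (a b : Dir E) :
    famEntry A p q a b = famEntry A p q b a := by
  rcases a with _ | _ | a <;> rcases b with _ | _ | b <;> try rfl
  exact hA.symm _ _ _ _

theorem bil_apply {ι : Type} [Fintype ι] (M : ι → ι → ℝ) (u v : ι → ℝ) :
    bil M u v = ∑ a, ∑ b, u a * M a b * v b := rfl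

theorem bil_single {ι : Type} [Fintype ι] [DecidableEq ι] (M : ι → ι → ℝ) (a : ι) (v : ι → ℝ) :
    bil M (Pi.single a 1) v = ∑ b, M a b * v b := by
  rw [bil_apply, Finset.sum_eq_single a]
  · refine Finset.sum_congr rfl fun b _ => ?_
    rw [Pi.single_eq_same, one_mul]
  · intro c _ hc
    refine Finset.sum_eq_zero fun b _ => ?_
    rw [Pi.single_eq_of_ne hc, zero_mul, zero_mul]
  · intro h
    exact absurd (Finset.mem_univ a) h

theorem famP_apply (p : ℤ) (v : Dir E → ℝ) : (famCtx A).P p v = ∑ a, cP A p a * v a := by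
  show (∑ a, cP A p a • LinearMap.proj a : (Dir E → ℝ) →ₗ[ℝ] ℝ) v = _
  rw [LinearMap.sum_apply]
  rfl

theorem famQ_apply (q : ℤ) (v : Dir E → ℝ) : (famCtx A).Q q v = ∑ a, cQ A q a * v a := by
  show (∑ a, cQ A q a • LinearMap.proj a : (Dir E → ℝ) →ₗ[ℝ] ℝ) v = _
  rw [LinearMap.sum_apply]
  rfl

theorem sum_single (f : Dir E → ℝ) (a : Dir E) :
    ∑ b, f b * (Pi.single a 1 : Dir E → ℝ) b = f a := by
  rw [Finset.sum_eq_single a]
  · rw [Pi.single_eq_same, mul_one]
  · intro b _ hb
    rw [Pi.single_eq_of_ne hb, mul_zero]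
  · intro h
    exact absurd (Finset.mem_univ a) h

omit [Fintype E] [DecidableEq E] in
theorem entryX (p q : ℤ) (b : Dir E) :
    famEntry A p q .X b = cP A (p + 1) b - cQ A q b := by
  rcases b with _ | _ | e
  · show pre A.S.L (p + 2) - pre A.S.R (p + 2 - (p - q + 2)) = pre A.S.L (p + 1 + 1) - pre A.S.R q
    congr 2 <;> ring
  · show pre A.S.L (p + 1) - pre A.S.R (p + 1 - (p - q + 2)) = pre A.S.L (p + 1) - pre A.S.R (q - 1)
    congr 2; ring
  · show pre (A.Se e).L (p + 1) - pre (A.Se e).R (p + 1 - (p - q + 2)) =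
      pre (A.Se e).L (p + 1) - pre (A.Se e).R (q - 1)
    congr 2; ring

omit [Fintype E] [DecidableEq E] in
theorem entryY (p q : ℤ) (b : Dir E) :
    famEntry A p q .Y b = cP A p b - cQ A (q - 1) b := by
  rcases b with _ | _ | e
  · show pre A.S.L (p + 1) - pre A.S.R (p + 1 - (p - q + 2)) = pre A.S.L (p + 1) - pre A.S.R (q - 1)
    congr 2; ring
  · show pre A.S.L p - pre A.S.R (p - (p - q + 2)) = pre A.S.L p - pre A.S.R (q - 1 - 1)
    congr 2; ring
  · show pre (A.Se e).L p - pre (A.Se e).R (p - (p - q + 2)) =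
      pre (A.Se e).L p - pre (A.Se e).R (q - 1 - 1)
    congr 2; ring

end rel

theorem brr : StmtBRR := by
  intro E _ _ A hA
  refine ⟨fun p q u v => ?_, fun p q v => ?_, fun p q v => ?_, fun p => ?_, fun q => ?_,
    fun q => ?_, fun q => ?_⟩
  · show bil (famEntry A p q) u v = bil (famEntry A p q) v u
    rw [bil_apply, bil_apply, Finset.sum_comm]
    refine Finset.sum_congr rfl fun b _ => Finset.sum_congr rfl fun a _ => ?_
    rw [famEntry_symm A hA p q a b]
    ring
  · show bil (famEntry A p q) (Pi.single .X 1) v = _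
    rw [bil_single, famP_apply, famQ_apply, ← Finset.sum_sub_distrib]
    refine Finset.sum_congr rfl fun b _ => ?_
    rw [entryX]
    ring
  · show bil (famEntry A p q) (Pi.single .Y 1) v = _
    rw [bil_single, famP_apply, famQ_apply, ← Finset.sum_sub_distrib]
    refine Finset.sum_congr rfl fun b _ => ?_
    rw [entryY]
    ring
  · rw [famP_apply, famP_apply]
    show ∑ a, cP A p a * (Pi.single .X 1 : Dir E → ℝ) a =
      ∑ a, cP A (p + 1) a * (Pi.single .Y 1 : Dir E → ℝ) a
    rw [sum_single, sum_single]
    rfl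
  · rw [famQ_apply, famQ_apply]
    show ∑ a, cQ A q a * (Pi.single .Y 1 : Dir E → ℝ) a =
      ∑ a, cQ A (q - 1) a * (Pi.single .X 1 : Dir E → ℝ) a
    rw [sum_single, sum_single]
    rfl
  · exact le_max_right _ _
  · have h1 : (famCtx A).pr.h q = A.S.h (-1) (q - 1) := by
      show (famCtx A).P (q - 1) (famCtx A).Y - (famCtx A).Q q (famCtx A).X = _
      rw [famP_apply, famQ_apply]
      show ∑ a, cP A (q - 1) a * (Pi.single .Y 1 : Dir E → ℝ) a -
        ∑ a, cQ A q a * (Pi.single .X 1 : Dir E → ℝ) a = _
      rw [sum_single, sum_single]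
      show pre A.S.L (q - 1) - pre A.S.R q = pre A.S.L (q - 1) - pre A.S.R (q - 1 - (-1))
      congr 2
      ring
    rw [h1]
    exact le_max_left _ _

end Pool.Agent.Helper13.LZ
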